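import Pool.Agent.V1139.SL2.Three

set_option autoImplicit false

open Matrix Module

namespace Pool.Agent.Results.MP_23ff89_al.NotTriple

open Pool.Agent.V1139.Leonard Pool.Agent.V1139.Three

/-- `X` is diagonal and `Y` is irreducible tridiagonal in some basis of `V`. -/
def HalfLeonard {K V : Type} [Field K] [AddCommGroup V] [Module K V]
    (X Y : Module.End K V) : Prop :=
  ∃ (n : ℕ) (b : Basis (Fin n) K V), Diag (LinearMap.toMatrix b b X) ∧
    IrredTridiag (LinearMap.toMatrix b b Y)

/-- Leonard pairs. -/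
def IsLeonardPair {K V : Type} [Field K] [AddCommGroup V] [Module K V]
    (A B : Module.End K V) : Prop := HalfLeonard A B ∧ HalfLeonard B A

section
variable {K : Type} [Field K]

abbrev V3 (K : Type) : Type := Fin 3 → K

noncomputable def opA (K : Type) [Field K] : Module.End K (V3 K) :=
  Matrix.mulVecLin !![0, 0, 0; 0, 1, 0; 0, 0, -1]
noncomputable def opB (K : Type) [Field K] : Module.End K (V3 K) :=
  Matrix.mulVecLin !![0, 1, 0; 2, -2, 1; 0, 3, -2]
noncomputable def opC (K : Type) [Field K] : Module.End K (V3 K) :=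
  Matrix.mulVecLin !![0, 0, -1; 0, -2, 3; -2, 1, -2]

theorem opA_apply (v : V3 K) : opA K v = ![0, v 1, -v 2] := by
  unfold opA
  rw [Matrix.mulVecLin_apply]
  funext i
  fin_cases i <;> simp [Matrix.mulVec, dotProduct, Fin.sum_univ_three]

theorem opB_apply (v : V3 K) : opB K v = ![v 1, 2 * v 0 - 2 * v 1 + v 2, 3 * v 1 - 2 * v 2] := by
  unfold opB
  rw [Matrix.mulVecLin_apply]
  funext i
  fin_cases i <;> simp [Matrix.mulVec, dotProduct, Fin.sum_univ_three] <;> ring

theorem opC_apply (v : V3 K) : opC K v = ![-v 2, -2 * v 1 + 3 * v 2, -2 * v 0 + v 1 - 2 * v 2] := by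
  unfold opC
  rw [Matrix.mulVecLin_apply]
  funext i
  fin_cases i <;> simp [Matrix.mulVec, dotProduct, Fin.sum_univ_three] <;> ring

variable [CharZero K]

/-- Basis of `A`-eigenvectors `e0, e1, e2`. -/
theorem halfAB : HalfLeonard (opA K) (opB K) := by
  obtain ⟨c, hc⟩ := exists_bas (![![1, 0, 0], ![0, 1, 0], ![0, 0, 1]] : Fin 3 → V3 K) (by
    apply li_of
    intro x0 x1 x2 h
    have r0 := h 0
    have r1 := h 1
    have r2 := h 2
    simp at r0 r1 r2
    exact ⟨r0, r1, r2⟩)
  refine ⟨3, c, ?_, ?_⟩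
  · have : LinearMap.toMatrix c c (opA K) = !![0, 0, 0; 0, 1, 0; 0, 0, -1] := by
      apply mat_of
      intro j
      funext k
      rw [Fin.sum_univ_three, hc, hc, hc, hc]
      fin_cases j <;> fin_cases k <;> simp [opA_apply]
    rw [this]; exact diag3 _ _ _
  · have : LinearMap.toMatrix c c (opB K) = !![0, 1, 0; 2, -2, 1; 0, 3, -2] := by
      apply mat_of
      intro j
      funext k
      rw [Fin.sum_univ_three, hc, hc, hc, hc]
      fin_cases j <;> fin_cases k <;> simp [opB_apply]
    rw [this]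
    exact irr3 _ _ _ _ _ _ _ (by norm_num) (by norm_num) (by norm_num) (by norm_num)

theorem halfAC : HalfLeonard (opA K) (opC K) := by
  obtain ⟨c, hc⟩ := exists_bas (![![1, 0, 0], ![0, 0, 1], ![0, 1, 0]] : Fin 3 → V3 K) (by
    apply li_of
    intro x0 x1 x2 h
    have r0 := h 0
    have r1 := h 1
    have r2 := h 2
    simp at r0 r1 r2
    exact ⟨r0, r2, r1⟩)
  refine ⟨3, c, ?_, ?_⟩
  · have : LinearMap.toMatrix c c (opA K) = !![0, 0, 0; 0, -1, 0; 0, 0, 1] := by
      apply mat_of
      intro j
      funext k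
      rw [Fin.sum_univ_three, hc, hc, hc, hc]
      fin_cases j <;> fin_cases k <;> simp [opA_apply]
    rw [this]; exact diag3 _ _ _
  · have : LinearMap.toMatrix c c (opC K) = !![0, -1, 0; -2, -2, 1; 0, 3, -2] := by
      apply mat_of
      intro j
      funext k
      rw [Fin.sum_univ_three, hc, hc, hc, hc]
      fin_cases j <;> fin_cases k <;> simp [opC_apply]
    rw [this]
    exact irr3 _ _ _ _ _ _ _ (by norm_num) (by norm_num) (by norm_num) (by norm_num)

/-- The eigenbasis of `B`, for the eigenvalues `-1, -4, 1`. -/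
theorem basB : ∃ c : Basis (Fin 3) K (V3 K),
    LinearMap.toMatrix c c (opB K) = !![-1, 0, 0; 0, -4, 0; 0, 0, 1] ∧
    LinearMap.toMatrix c c (opA K) = !![-1/3, 5/3, 0; 1/3, 2/15, -1/5; 0, -9/5, 1/5] ∧
    LinearMap.toMatrix c c (opC K) = !![5/3, -10/3, 0; 4/3, -76/15, -2/5; 0, 12/5, -3/5] := by
  obtain ⟨c, hc⟩ := exists_bas (![![1, -1, -3], ![1, -4, 6], ![1, 1, 1]] : Fin 3 → V3 K) (by
    apply li_of
    intro x0 x1 x2 h
    have r0 := h 0
    have r1 := h 1
    have r2 := h 2
    simp at r0 r1 r2
    have e2 : x2 = -x0 - x1 := by linear_combination r0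
    subst e2
    have e1 : (5 : K) * x1 = -2 * x0 := by linear_combination -r1
    have e0 : (30 : K) * x0 = 0 := by linear_combination (-5) * r2 + 5 * e1
    have e0' : x0 = 0 := (mul_eq_zero.mp e0).resolve_left (by norm_num)
    subst e0'
    have e1' : x1 = 0 := (mul_eq_zero.mp (by simpa using e1 : (5 : K) * x1 = 0)).resolve_left
      (by norm_num)
    subst e1'
    exact ⟨rfl, rfl, by ring⟩)
  refine ⟨c, ?_, ?_, ?_⟩
  · apply mat_of
    intro j
    funext k
    rw [Fin.sum_univ_three, hc, hc, hc, hc]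
    fin_cases j <;> fin_cases k <;> simp [opB_apply] <;> norm_num
  · apply mat_of
    intro j
    funext k
    rw [Fin.sum_univ_three, hc, hc, hc, hc]
    fin_cases j <;> fin_cases k <;> simp [opA_apply] <;> norm_num
  · apply mat_of
    intro j
    funext k
    rw [Fin.sum_univ_three, hc, hc, hc, hc]
    fin_cases j <;> fin_cases k <;> simp [opC_apply] <;> norm_num

/-- The eigenbasis of `C`, for the eigenvalues `-1, -4, 1`. -/
theorem basC : ∃ c : Basis (Fin 3) K (V3 K),
    LinearMap.toMatrix c c (opC K) = !![-1, 0, 0; 0, -4, 0; 0, 0, 1] ∧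
    LinearMap.toMatrix c c (opA K) = !![1/3, 5/3, 0; 1/3, -2/15, -1/5; 0, -9/5, -1/5] ∧
    LinearMap.toMatrix c c (opB K) = !![5/3, 10/3, 0; -4/3, -76/15, 2/5; 0, -12/5, -3/5] := by
  obtain ⟨c, hc⟩ := exists_bas (![![-1, -3, -1], ![1, -6, 4], ![-1, 1, 1]] : Fin 3 → V3 K) (by
    apply li_of
    intro x0 x1 x2 h
    have r0 := h 0
    have r1 := h 1
    have r2 := h 2
    simp at r0 r1 r2
    have e2 : x2 = -x0 + x1 := by linear_combination -r0
    subst e2
    have e1 : (5 : K) * x1 = 2 * x0 := by linear_combination r2 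
    have e0 : (-6 : K) * x0 = 0 := by linear_combination r1 + e1
    have e0' : x0 = 0 := (mul_eq_zero.mp e0).resolve_left (by norm_num)
    subst e0'
    have e1' : x1 = 0 := (mul_eq_zero.mp (by simpa using e1 : (5 : K) * x1 = 0)).resolve_left
      (by norm_num)
    subst e1'
    exact ⟨rfl, rfl, by ring⟩)
  refine ⟨c, ?_, ?_, ?_⟩
  · apply mat_of
    intro j
    funext k
    rw [Fin.sum_univ_three, hc, hc, hc, hc]
    fin_cases j <;> fin_cases k <;> simp [opC_apply] <;> norm_num
  · apply mat_of
    intro j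
    funext k
    rw [Fin.sum_univ_three, hc, hc, hc, hc]
    fin_cases j <;> fin_cases k <;> simp [opA_apply] <;> norm_num
  · apply mat_of
    intro j
    funext k
    rw [Fin.sum_univ_three, hc, hc, hc, hc]
    fin_cases j <;> fin_cases k <;> simp [opB_apply] <;> norm_num

theorem halfBA : HalfLeonard (opB K) (opA K) := by
  obtain ⟨c, h1, h2, h3⟩ := basB (K := K)
  refine ⟨3, c, ?_, ?_⟩
  · rw [h1]; exact diag3 _ _ _
  · rw [h2]
    exact irr3 _ _ _ _ _ _ _ (by norm_num) (by norm_num) (by norm_num) (by norm_num)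

theorem halfBC : HalfLeonard (opB K) (opC K) := by
  obtain ⟨c, h1, h2, h3⟩ := basB (K := K)
  refine ⟨3, c, ?_, ?_⟩
  · rw [h1]; exact diag3 _ _ _
  · rw [h3]
    exact irr3 _ _ _ _ _ _ _ (by norm_num) (by norm_num) (by norm_num) (by norm_num)

theorem halfCA : HalfLeonard (opC K) (opA K) := by
  obtain ⟨c, h1, h2, h3⟩ := basC (K := K)
  refine ⟨3, c, ?_, ?_⟩
  · rw [h1]; exact diag3 _ _ _
  · rw [h2]
    exact irr3 _ _ _ _ _ _ _ (by norm_num) (by norm_num) (by norm_num) (by norm_num)

theorem halfCB : HalfLeonard (opC K) (opB K) := by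
  obtain ⟨c, h1, h2, h3⟩ := basC (K := K)
  refine ⟨3, c, ?_, ?_⟩
  · rw [h1]; exact diag3 _ _ _
  · rw [h3]
    exact irr3 _ _ _ _ _ _ _ (by norm_num) (by norm_num) (by norm_num) (by norm_num)

/-- A nonzero `A`-eigenvector `v` such that `B v` and `C v` lie in the span of `v` and one more
`A`-eigenvector is a multiple of `e0`. -/
theorem endpoint (v w : V3 K) (t s x y x' y' : K) (hv : v ≠ 0)
    (h1 : opA K v = t • v) (h2 : opA K w = s • w)
    (h3 : opB K v = x • v + y • w) (h4 : opC K v = x' • v + y' • w) :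
    v 1 = 0 ∧ v 2 = 0 := by
  rw [opA_apply] at h1 h2
  rw [opB_apply] at h3
  rw [opC_apply] at h4
  have a0 := congrFun h1 0
  have a1 := congrFun h1 1
  have a2 := congrFun h1 2
  have b0 := congrFun h2 0
  have b1 := congrFun h2 1
  have b2 := congrFun h2 2
  have c0 := congrFun h3 0
  have c1 := congrFun h3 1
  have c2 := congrFun h3 2
  have d0 := congrFun h4 0
  have d1 := congrFun h4 1
  have d2 := congrFun h4 2
  simp only [Matrix.cons_val_zero, Matrix.cons_val_one, Matrix.cons_val, Pi.smul_apply,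
    Pi.add_apply, smul_eq_mul] at a0 a1 a2 b0 b1 b2 c0 c1 c2 d0 d1 d2
  constructor
  · by_contra hv1
    have ht : t = 1 := by
      have : (1 - t) * v 1 = 0 := by linear_combination a1
      have := (mul_eq_zero.mp this).resolve_right hv1
      linear_combination -this
    subst ht
    have e0 : v 0 = 0 := by linear_combination -a0
    have e2 : v 2 = 0 := by
      have : (2 : K) * v 2 = 0 := by linear_combination -a2
      exact (mul_eq_zero.mp this).resolve_left (by norm_num)
    rw [e0] at c0
    rw [e2] at c2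
    have f0 : y * w 0 ≠ 0 := by
      intro h; apply hv1; linear_combination c0 + h
    have f2 : y * w 2 ≠ 0 := by
      intro h
      apply hv1
      have : (3 : K) * v 1 = 0 := by linear_combination c2 + h
      exact (mul_eq_zero.mp this).resolve_left (by norm_num)
    have g0 : s = 0 := by
      have : s * w 0 = 0 := b0.symm
      exact (mul_eq_zero.mp this).resolve_right (right_ne_zero_of_mul f0)
    rw [g0] at b2
    exact right_ne_zero_of_mul f2 (by linear_combination -b2)
  · by_contra hv2
    have ht : t = -1 := by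
      have : (1 + t) * v 2 = 0 := by linear_combination -a2
      have := (mul_eq_zero.mp this).resolve_right hv2
      linear_combination this
    subst ht
    have e0 : v 0 = 0 := by linear_combination a0
    have e1 : v 1 = 0 := by
      have : (2 : K) * v 1 = 0 := by linear_combination a1
      exact (mul_eq_zero.mp this).resolve_left (by norm_num)
    rw [e0] at d0
    rw [e1] at d1
    have f0 : y' * w 0 ≠ 0 := by
      intro h; apply hv2; linear_combination -d0 - h
    have f1 : y' * w 1 ≠ 0 := by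
      intro h
      apply hv2
      have : (3 : K) * v 2 = 0 := by linear_combination d1 + h
      exact (mul_eq_zero.mp this).resolve_left (by norm_num)
    have g0 : s = 0 := by
      have : s * w 0 = 0 := b0.symm
      exact (mul_eq_zero.mp this).resolve_right (right_ne_zero_of_mul f0)
    rw [g0] at b1
    exact right_ne_zero_of_mul f1 (by linear_combination b1)

theorem notTriple : ¬ HasAdaptedBasis (opA K) (opB K) (opC K) := by
  rintro ⟨n, c, hD, ⟨hB, -⟩, ⟨hC, -⟩⟩
  have hn : n = 3 := by
    have h1 := Module.finrank_eq_card_basis c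
    simp at h1
    exact h1.symm
  subst hn
  have hexp : ∀ (X : Module.End K (V3 K)) (j : Fin 3),
      X (c j) = LinearMap.toMatrix c c X 0 j • c 0 + LinearMap.toMatrix c c X 1 j • c 1
        + LinearMap.toMatrix c c X 2 j • c 2 := by
    intro X j
    have := (c.sum_repr (X (c j))).symm
    rw [Fin.sum_univ_three] at this
    simpa [LinearMap.toMatrix_apply] using this
  have u0 := hexp (opA K) 0
  have u1 := hexp (opA K) 1
  have u2 := hexp (opA K) 2
  rw [hD 1 0 (by decide), hD 2 0 (by decide), zero_smul, zero_smul, add_zero, add_zero] at u0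
  rw [hD 0 1 (by decide), hD 2 1 (by decide), zero_smul, zero_smul, zero_add, add_zero] at u1
  rw [hD 0 2 (by decide), hD 1 2 (by decide), zero_smul, zero_smul, zero_add, zero_add] at u2
  have b0 := hexp (opB K) 0
  have b2 := hexp (opB K) 2
  have d0 := hexp (opC K) 0
  have d2 := hexp (opC K) 2
  rw [hB 2 0 (by decide), zero_smul, add_zero] at b0
  rw [hB 0 2 (by decide), zero_smul, zero_add, add_comm] at b2
  rw [hC 2 0 (by decide), zero_smul, add_zero] at d0
  rw [hC 0 2 (by decide), zero_smul, zero_add, add_comm] at d2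
  obtain ⟨p1, p2⟩ := endpoint _ _ _ _ _ _ _ _ (c.ne_zero 0) u0 u1 b0 d0
  obtain ⟨q1, q2⟩ := endpoint _ _ _ _ _ _ _ _ (c.ne_zero 2) u2 u1 b2 d2
  have hdep : (c 2) 0 • c 0 = (c 0) 0 • c 2 := by
    funext i
    fin_cases i
    · simp; ring
    · simp [p1, q1]
    · simp [p2, q2]
  have h3 := congrArg (fun v => c.repr v 0) hdep
  simp at h3
  apply c.ne_zero 2
  funext i
  fin_cases i
  · simp [h3]
  · simp [q1]
  · simp [q2]

end

/-- Over every field `K` of characteristic zero there are maps `A, B, C` on `K ^ 3` any two of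
which form a Leonard pair, such that no basis diagonalises `A` and makes `B` and `C` both
irreducible tridiagonal; so `A, B, C` is not a Leonard triple. -/
theorem result (K : Type) [Field K] [CharZero K] :
    ∃ A B C : Module.End K (Fin 3 → K), IsLeonardPair A B ∧ IsLeonardPair A C ∧
      IsLeonardPair B C ∧ ¬ HasAdaptedBasis A B C ∧ ¬ IsLeonardTriple A B C :=
  ⟨opA K, opB K, opC K, ⟨halfAB, halfBA⟩, ⟨halfAC, halfCA⟩, ⟨halfBC, halfCB⟩, notTriple,
    fun h => notTriple h.1⟩

end Pool.Agent.Results.MP_23ff89_al.NotTriple
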